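import Pool.Agent.Mader.T6
import Pool.Agent.Mader4.LemF2
import Pool.Agent.Mader4.Transl
import Pool.Agent.Mader4.TwoS

set_option autoImplicit false

namespace Pool.Agent.Results.MP_e72356_co.MaderIsFour

/-- `D` contains a subdivision of the bioriented triangle: three distinct branch vertices
`a, b, c` and, for each ordered pair of them, a directed path (given by the list of its
interior vertices) such that all these vertices are distinct. -/
def HasSubdivision {V : Type} (D : Digraph V) : Prop :=
  ∃ (a b c : V) (l₁ l₂ l₃ l₄ l₅ l₆ : List V),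
    ([a, b, c] ++ l₁ ++ l₂ ++ l₃ ++ l₄ ++ l₅ ++ l₆).Nodup ∧
    (a :: (l₁ ++ [b])).IsChain D.Adj ∧
    (b :: (l₂ ++ [a])).IsChain D.Adj ∧
    (b :: (l₃ ++ [c])).IsChain D.Adj ∧
    (c :: (l₄ ++ [b])).IsChain D.Adj ∧
    (a :: (l₅ ++ [c])).IsChain D.Adj ∧
    (c :: (l₆ ++ [a])).IsChain D.Adj

/-- The vertices of `D` can be coloured with `k` colours such that no directed cycle is
monochromatic. -/
def Dicolourable {V : Type} (D : Digraph V) (k : ℕ) : Prop :=
  ∃ f : V → Fin k, ∀ v, ¬ Relation.TransGen (fun x y => D.Adj x y ∧ f x = f y) v v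

open Relation List

theorem not_hasK3 {V : Type} (D : Digraph V) (h : ¬ HasSubdivision D) :
    ¬ Pool.Agent.Mader.HasK3 D.Adj Set.univ := by
  intro hk
  obtain ⟨β, L, hk'⟩ := id hk
  have := Pool.Agent.Mader.frozen_of_col (k := 0) D (fun hn => absurd hk hn) ?_
  · obtain ⟨f, _⟩ := this
    exact (f (β 0)).elim0
  · rintro ⟨a, b, c, l₁, l₂, l₃, l₄, l₅, l₆, hn, h1, h2, h3, h4, h5, h6⟩
    apply h
    exact ⟨a, b, c, l₁, l₂, l₃, l₄, l₅, l₆, hn,
      (Pool.Agent.Mader.zip_chain (l₁ ++ [b]) a).1 h1,
      (Pool.Agent.Mader.zip_chain (l₂ ++ [a]) b).1 h2,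
      (Pool.Agent.Mader.zip_chain (l₃ ++ [c]) b).1 h3,
      (Pool.Agent.Mader.zip_chain (l₄ ++ [b]) c).1 h4,
      (Pool.Agent.Mader.zip_chain (l₅ ++ [c]) a).1 h5,
      (Pool.Agent.Mader.zip_chain (l₆ ++ [a]) c).1 h6⟩

theorem upper {V : Type} [Finite V] (D : Digraph V) (hloop : ∀ v, ¬ D.Adj v v)
    (h : ¬ HasSubdivision D) : Dicolourable D 3 :=
  Pool.Agent.Mader.col_three_of Pool.Agent.Mader.t6 Pool.Agent.Mader.two_strong
    Pool.Agent.Mader.lemF_three hloop (not_hasK3 D h)

/-- The bioriented pentagon. -/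
def Pentagon : Digraph (Fin 5) := ⟨fun x y => y = x + 1 ∨ x = y + 1⟩

theorem pentagon_loop : ∀ v, ¬ Pentagon.Adj v v := by
  intro v; revert v; unfold Pentagon; decide

theorem pentagon_symm {x y : Fin 5} (h : Pentagon.Adj x y) : Pentagon.Adj y x := by
  rcases h with h | h
  · exact Or.inr h
  · exact Or.inl h

theorem pentagon_tri : ∀ x y z : Fin 5, Pentagon.Adj x y → Pentagon.Adj y z →
    ¬ Pentagon.Adj x z := by
  unfold Pentagon; decide

theorem pentagon_quad : ∀ x y z w : Fin 5, Pentagon.Adj x y → Pentagon.Adj y z →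
    Pentagon.Adj z w → Pentagon.Adj w x → x ≠ z → y = w := by
  unfold Pentagon; decide

theorem direct {l : List (Fin 5)} {x y : Fin 5} (hl : l = [])
    (h : (x :: (l ++ [y])).IsChain Pentagon.Adj) : Pentagon.Adj x y := by
  subst hl; simpa using h

theorem via {z x y : Fin 5} (h : (x :: ([z] ++ [y])).IsChain Pentagon.Adj) :
    Pentagon.Adj x z ∧ Pentagon.Adj z y := by
  simpa using h

/-- one of the three pairs of branch vertices is joined by two paths with interior vertices -/
theorem key {x y z : Fin 5} {l : List (Fin 5)}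
    (hl : l.length = 1) (h1 : (x :: (l ++ [y])).IsChain Pentagon.Adj)
    (hyz : Pentagon.Adj y z) (hzx : Pentagon.Adj z x) (hxy : x ≠ y) (hz : z ∉ l) : False := by
  obtain ⟨w, rfl⟩ := List.length_eq_one_iff.1 hl
  have := via h1
  exact hz (by
    have e := pentagon_quad x w y z this.1 this.2 hyz hzx hxy
    simp [e])

theorem pentagon_sub : ¬ HasSubdivision Pentagon := by
  rintro ⟨a, b, c, l₁, l₂, l₃, l₄, l₅, l₆, hn, h1, h2, h3, h4, h5, h6⟩
  have hlen : 3 + (l₁.length + l₂.length + l₃.length + l₄.length + l₅.length + l₆.length) ≤ 5 := by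
    have := hn.length_le_card
    simp at this
    omega
  have hab : a ≠ b := by
    rintro rfl; simp at hn
  have hac : a ≠ c := by
    rintro rfl; simp at hn
  have hbc : b ≠ c := by
    rintro rfl; simp at hn
  have hc1 : c ∉ l₁ := by
    intro h; simp [nodup_append] at hn; tauto
  have hb5 : b ∉ l₅ := by
    intro h; simp [nodup_append] at hn; tauto
  have ha3 : a ∉ l₃ := by
    intro h; simp [nodup_append] at hn; tauto
  have e0 : ∀ l : List (Fin 5), l.length = 0 → l = [] := fun l => List.length_eq_zero_iff.1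
  by_cases p : (l₁.length = 0 ∨ l₂.length = 0)
  · have Aab : Pentagon.Adj a b := by
      rcases p with p | p
      · exact direct (e0 _ p) h1
      · exact pentagon_symm (direct (e0 _ p) h2)
    by_cases q : (l₃.length = 0 ∨ l₄.length = 0)
    · have Abc : Pentagon.Adj b c := by
        rcases q with q | q
        · exact direct (e0 _ q) h3
        · exact pentagon_symm (direct (e0 _ q) h4)
      by_cases r : (l₅.length = 0 ∨ l₆.length = 0)
      · have Aac : Pentagon.Adj a c := by
          rcases r with r | r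
          · exact direct (e0 _ r) h5
          · exact pentagon_symm (direct (e0 _ r) h6)
        exact pentagon_tri a b c Aab Abc Aac
      · exact key (l := l₅) (by omega) h5 (pentagon_symm Abc)
          (pentagon_symm Aab) hac hb5
    · have Aac : Pentagon.Adj a c := direct (e0 _ (by omega)) h5
      exact key (l := l₃) (by omega) h3 (pentagon_symm Aac) Aab hbc ha3
  · have Aac : Pentagon.Adj a c := direct (e0 _ (by omega)) h5
    have Abc : Pentagon.Adj b c := direct (e0 _ (by omega)) h3
    exact key (l := l₁) (by omega) h1 Abc (pentagon_symm Aac) hab hc1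

theorem pentagon_col {k : ℕ} (h : Dicolourable Pentagon k) : 3 ≤ k := by
  obtain ⟨f, hf⟩ := h
  by_contra hk
  have hne : ∀ x, f x ≠ f (x + 1) := by
    intro x e
    exact hf x ((TransGen.single ⟨Or.inl rfl, e⟩).tail ⟨Or.inr rfl, e.symm⟩)
  have hv : ∀ x, (f x : ℕ) < 2 := fun x => by have := (f x).2; omega
  have h2 : ∀ x, (f x : ℕ) ≠ f (x + 1) := fun x e => hne x (Fin.ext e)
  have a0 := h2 0
  have a1 := h2 1
  have a2 := h2 2
  have a3 := h2 3
  have a4 := h2 4
  have b0 := hv 0
  have b1 := hv 1
  have b2 := hv 2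
  have b3 := hv 3
  have b4 := hv 4
  simp only [show (0 : Fin 5) + 1 = 1 from rfl, show (1 : Fin 5) + 1 = 2 from rfl,
    show (2 : Fin 5) + 1 = 3 from rfl, show (3 : Fin 5) + 1 = 4 from rfl,
    show (4 : Fin 5) + 1 = 0 from rfl] at a0 a1 a2 a3 a4
  omega

/-- The Mader number of the bioriented triangle for the dichromatic number is `4`: it is the
least `m` such that every finite loopless digraph of dichromatic number at least `m` contains a
subdivision of the bioriented triangle. -/
theorem result :
    IsLeast {m : ℕ | ∀ (V : Type) [Finite V] (D : Digraph V), (∀ v, ¬ D.Adj v v) →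
      (∀ k, Dicolourable D k → m ≤ k) → HasSubdivision D} 4 := by
  constructor
  · intro V _ D hloop hk
    by_contra hno
    have := hk 3 (upper D hloop hno)
    omega
  · intro m hm
    by_contra hlt
    exact pentagon_sub (hm (Fin 5) Pentagon pentagon_loop
      (fun k hk => by have := pentagon_col hk; omega))

end Pool.Agent.Results.MP_e72356_co.MaderIsFour
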